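import Pool.Agent.W734.STB.Stms

set_option autoImplicit false

namespace Pool.Agent.W481.STB

open Finset Pool.Agent.W734.TWB Pool.Agent.W734.STB

theorem index_close {N : ℕ} {l R : ℝ} (hl : 0 < l) {k : Fin N → (Fin 3 → ℤ)} {x : Cfg N}
    (hx : x ∈ reg l k) {i j : Fin N} (h : ‖x i - x j‖ ≤ R * l) (a : Fin 3) :
    |k i a - k j a| ≤ ⌈R⌉ + 1 := by
  have h1 : |x i a - x j a| ≤ R * l := by
    have h2 := PiLp.norm_apply_le (x i - x j) a
    rw [PiLp.sub_apply, Real.norm_eq_abs] at h2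
    exact h2.trans h
  obtain ⟨a1, a2⟩ := hx i a
  obtain ⟨b1, b2⟩ := hx j a
  rw [abs_le] at h1
  have h3 : (R : ℝ) ≤ ⌈R⌉ := Int.le_ceil R
  have key : ∀ u v : ℤ, l * (u : ℝ) - l * (v : ℝ) < (R + 1) * l → u - v ≤ ⌈R⌉ + 1 := by
    intro u v huv
    have h4 : l * ((u : ℝ) - v) < l * (R + 1) := by linarith
    have h5 : (u : ℝ) - v < R + 1 := lt_of_mul_lt_mul_left h4 hl.le
    have h6 : ((u - v : ℤ) : ℝ) < ((⌈R⌉ + 1 : ℤ) : ℝ) := by
      push_cast
      linarith
    have h7 : u - v < ⌈R⌉ + 1 := by exact_mod_cast h6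
    exact h7.le
  rw [abs_le]
  constructor
  · have := key (k j a) (k i a) (by linarith [h1.1])
    linarith
  · exact key (k i a) (k j a) (by linarith [h1.2])

theorem pc : S_PC := by
  classical
  intro R hR
  set K : ℤ := ⌈R⌉ + 1 with hK
  have hK0 : 0 ≤ K := by
    have : 0 ≤ ⌈R⌉ := Int.ceil_nonneg hR.le
    omega
  set Δ : Finset (Fin 3 → ℤ) := Fintype.piFinset (fun _ => Finset.Icc (-K) K) with hΔ
  have hΔ0 : (0 : Fin 3 → ℤ) ∈ Δ := by
    rw [hΔ, Fintype.mem_piFinset]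
    intro a
    rw [Finset.mem_Icc]
    exact ⟨by simpa using hK0, by simpa using hK0⟩
  refine ⟨(Δ.card : ℝ), by exact_mod_cast Finset.card_pos.mpr ⟨0, hΔ0⟩, ?_⟩
  intro l hl N k x hx
  set c : (Fin 3 → ℤ) → (Fin 3 → ℤ) → ℝ := fun α β => if ∀ a, |α a - β a| ≤ K then 1 else 0 with hc
  have hc0 : ∀ α β, 0 ≤ c α β := by
    intro α β
    simp only [hc]
    split_ifs <;> norm_num
  have hcs : ∀ α β, c α β = c β α := by
    intro α β
    simp only [hc]
    congr 1
    apply propext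
    constructor
    · intro h a
      rw [abs_sub_comm]
      exact h a
    · intro h a
      rw [abs_sub_comm]
      exact h a
  set m : (Fin 3 → ℤ) → ℝ := fun α => ((Finset.univ.filter (fun i => k i = α)).card : ℝ) with hm
  set I : Finset (Fin 3 → ℤ) := Finset.univ.image k with hI
  -- step 1
  have s1 : (∑ i : Fin N, ∑ j ∈ Finset.Ioi i, (if ‖x i - x j‖ ≤ R * l then (1 : ℝ) else 0)) ≤
      ∑ i : Fin N, ∑ j : Fin N, c (k i) (k j) := by
    refine Finset.sum_le_sum fun i _ => ?_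
    calc (∑ j ∈ Finset.Ioi i, (if ‖x i - x j‖ ≤ R * l then (1 : ℝ) else 0))
        ≤ ∑ j ∈ Finset.Ioi i, c (k i) (k j) := by
          refine Finset.sum_le_sum fun j _ => ?_
          split_ifs with h
          · have : ∀ a, |k i a - k j a| ≤ K := fun a => index_close hl hx h a
            simp only [hc]
            rw [if_pos this]
          · exact hc0 _ _
      _ ≤ ∑ j : Fin N, c (k i) (k j) :=
          Finset.sum_le_sum_of_subset_of_nonneg (Finset.subset_univ _) fun _ _ _ => hc0 _ _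
  -- step 2
  have s2 : ∑ i : Fin N, ∑ j : Fin N, c (k i) (k j) = ∑ α ∈ I, ∑ β ∈ I, c α β * (m α * m β) := by
    have e1 : ∀ α, ∑ j : Fin N, c α (k j) = ∑ β ∈ I, m β * c α β := by
      intro α
      rw [Finset.sum_comp (fun β => c α β) k]
      refine Finset.sum_congr rfl fun β _ => ?_
      rw [nsmul_eq_mul]
    simp only [e1]
    rw [Finset.sum_comp (fun α => ∑ β ∈ I, m β * c α β) k]
    refine Finset.sum_congr rfl fun α _ => ?_
    rw [nsmul_eq_mul, Finset.mul_sum]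
    refine Finset.sum_congr rfl fun β _ => ?_
    simp only [hm]
    ring
  -- step 3
  have s3 : ∑ α ∈ I, ∑ β ∈ I, c α β * (m α * m β) ≤ ∑ α ∈ I, ∑ β ∈ I, c α β * m α ^ 2 := by
    have e2 : ∑ α ∈ I, ∑ β ∈ I, c α β * m β ^ 2 = ∑ α ∈ I, ∑ β ∈ I, c α β * m α ^ 2 := by
      rw [Finset.sum_comm]
      refine Finset.sum_congr rfl fun α _ => Finset.sum_congr rfl fun β _ => ?_
      rw [hcs]
    have e3 : 2 * ∑ α ∈ I, ∑ β ∈ I, c α β * (m α * m β) ≤
        ∑ α ∈ I, ∑ β ∈ I, c α β * m α ^ 2 + ∑ α ∈ I, ∑ β ∈ I, c α β * m β ^ 2 := by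
      rw [Finset.mul_sum, ← Finset.sum_add_distrib]
      refine Finset.sum_le_sum fun α _ => ?_
      rw [Finset.mul_sum, ← Finset.sum_add_distrib]
      refine Finset.sum_le_sum fun β _ => ?_
      have h1 := hc0 α β
      nlinarith [mul_nonneg h1 (sq_nonneg (m α - m β))]
    linarith
  -- step 4
  have s4 : ∀ α, ∑ β ∈ I, c α β ≤ (Δ.card : ℝ) := by
    intro α
    simp only [hc]
    rw [← Finset.sum_filter, Finset.sum_const, nsmul_eq_mul, mul_one]
    have : (I.filter (fun β => ∀ a, |α a - β a| ≤ K)).card ≤ Δ.card := by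
      apply Finset.card_le_card_of_injOn (fun β => fun a => α a - β a)
      · intro β hβ
        rw [Finset.mem_coe, Finset.mem_filter] at hβ
        rw [Finset.mem_coe, hΔ, Fintype.mem_piFinset]
        intro a
        rw [Finset.mem_Icc]
        exact abs_le.mp (hβ.2 a)
      · intro β _ γ _ h
        funext a
        have := congrFun h a
        simp only at this
        omega
    exact_mod_cast this
  calc (∑ i : Fin N, ∑ j ∈ Finset.Ioi i, (if ‖x i - x j‖ ≤ R * l then (1 : ℝ) else 0))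
      ≤ ∑ α ∈ I, ∑ β ∈ I, c α β * m α ^ 2 := by
        rw [s2] at s1
        exact s1.trans s3
    _ = ∑ α ∈ I, (∑ β ∈ I, c α β) * m α ^ 2 := by
        refine Finset.sum_congr rfl fun α _ => ?_
        rw [Finset.sum_mul]
    _ ≤ ∑ α ∈ I, (Δ.card : ℝ) * m α ^ 2 :=
        Finset.sum_le_sum fun α _ => mul_le_mul_of_nonneg_right (s4 α) (sq_nonneg _)
    _ = (Δ.card : ℝ) * ∑ α ∈ I, m α ^ 2 := by rw [Finset.mul_sum]
    _ = _ := by
        congr 1

end Pool.Agent.W481.STB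

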